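import Pool.Agent.H.MP_d04dff_lc.C

set_option autoImplicit false

namespace Pool.Agent.Results.MP_d04dff_lc.Q1

open Pool.Agent.H.MP_d04dff_lc

theorem result (U : List Bool → List Bool →. List Bool) (hU : OptC U) (X : ℕ → Bool)
    (W : List Bool →. List Bool) (hW : OptO X W) : ∃ x : ℕ → List Bool, Sim U W x :=
  let ⟨x, h, _⟩ := upper hU hW
  ⟨x, h⟩

end Pool.Agent.Results.MP_d04dff_lc.Q1
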