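import Pool.Agent.H.MP_d04dff_lc.C

set_option autoImplicit false

namespace Pool.Agent.Results.MP_d04dff_lc.Q2

open Pool.Agent.H.MP_d04dff_lc Filter

theorem result (U : List Bool → List Bool →. List Bool) (hU : OptC U)
    (W : (ℕ → Bool) → List Bool →. List Bool) (hW : ∀ X, OptO X (W X)) :
    (∀ X, ∃ x, Sim U (W X) x ∧ ∃ d : ℕ, ∀ n, (x n).length ≤ d * (n + 1) * 2 ^ n) ∧
    ∃ X, (∀ x, Sim U (W X) x → ∃ d : ℕ, ∀ n, 2 ^ n ≤ (n + 2) ^ d * ((x n).length + 1)) ∧
      ∀ q : Polynomial ℝ, ¬ ∃ x, Sim U (W X) x ∧ ∀ n ≥ 1, ((x n).length : ℝ) ≤ q.eval (n : ℝ) := by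
  obtain ⟨X, hX⟩ := lower hU
  refine ⟨fun X => upper hU (hW X), X, hX _ (hW X), fun q ⟨x, h1, h2⟩ => ?_⟩
  obtain ⟨d, hd⟩ := hX _ (hW X) x h1
  have h3 : ∀ p : Polynomial ℝ, Tendsto (fun n : ℕ => p.eval (n : ℝ) / 2 ^ n) atTop (nhds 0) := by
    intro p
    induction p using Polynomial.induction_on' with
    | add p q hp hq => simpa [add_div] using hp.add hq
    | monomial k a =>
      simpa [mul_div_assoc] using
        (tendsto_pow_const_div_const_pow_of_one_lt k (r := 2) one_lt_two).const_mul a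
  obtain ⟨n, h4, h5⟩ := (((h3 ((Polynomial.X + 2) ^ d * (q + 1))).eventually
    (gt_mem_nhds one_pos)).and (eventually_ge_atTop 1)).exists
  rw [div_lt_one (by positivity)] at h4
  have h6 : (2 : ℝ) ^ n ≤ (n + 2) ^ d * ((x n).length + 1) := by exact_mod_cast hd n
  simp only [Polynomial.eval_mul, Polynomial.eval_pow, Polynomial.eval_add, Polynomial.eval_X,
    Polynomial.eval_one, Polynomial.eval_ofNat] at h4
  have h7 := mul_le_mul_of_nonneg_left (add_le_add_left (h2 n h5) 1)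
    (show (0 : ℝ) ≤ (n + 2) ^ d by positivity)
  linarith

end Pool.Agent.Results.MP_d04dff_lc.Q2
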